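import Pool.Agent.Q256.TreeZ

/-!
A non-Liouville vertex-transitive graph (the strong product of the four-regular tree with the
two-way infinite path) with finite survival number.
-/

namespace Pool.Agent.Results.MP_70c392_co.StrongTree

open SimpleGraph Pool.Agent.Q256.Surv Pool.Agent.Q256.TreeZ

/-- `h` is harmonic: its value at every vertex is its average over the neighbours -/
def Harmonic {V : Type*} (G : SimpleGraph V) [G.LocallyFinite] (h : V → ℝ) : Prop :=
  ∀ v, h v = (∑ u ∈ G.neighborFinset v, h u) / (G.degree v : ℝ)

/-- every bounded harmonic function is constant -/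
def Liouville {V : Type*} (G : SimpleGraph V) [G.LocallyFinite] : Prop :=
  ∀ h : V → ℝ, Harmonic G h → (∃ C : ℝ, ∀ v, |h v| ≤ C) → ∀ u v, h u = h v

/-- a bounded harmonic function on the tree, in terms of words -/
noncomputable def f : List Lt → ℝ
  | [] => 1
  | [c] => if c = (true, true) then 2 else 2 / 3
  | _ :: c :: w => (4 * f (c :: w) - f w) / 3

theorem f_step (c : Lt) (w : List Lt) : |f (c :: w) - f w| ≤ (1 / 3) ^ w.length := by
  induction w generalizing c with
  | nil =>
    simp only [f, List.length_nil, pow_zero]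
    split_ifs
    · norm_num
    · norm_num [abs_le]
  | cons d w ih =>
    have h1 := ih d
    simp only [f]
    rw [show (4 * f (d :: w) - f w) / 3 - f (d :: w) = (f (d :: w) - f w) / 3 by ring, abs_div,
      List.length_cons, pow_succ]
    rw [show |(3 : ℝ)| = 3 by norm_num]
    linarith

theorem f_bd (w : List Lt) : |f w| ≤ 5 / 2 - 3 / 2 * (1 / 3) ^ w.length := by
  induction w with
  | nil => simp [f]; norm_num
  | cons c w ih =>
    have h1 := f_step c w
    have h2 : |f (c :: w)| ≤ |f w| + |f (c :: w) - f w| := by
      have := abs_add_le (f w) (f (c :: w) - f w)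
      simpa using this
    rw [List.length_cons, pow_succ]
    linarith

/-- the harmonic function on the tree -/
noncomputable def hT (x : F) : ℝ := f (x⁻¹).toWord

theorem f_harm (W : List Lt) (hW : FreeGroup.reduce W = W) :
    ∑ s : Lt, f (FreeGroup.reduce (s :: W)) = 4 * f W := by
  cases W with
  | nil =>
    simp only [FreeGroup.reduce_singleton, Fintype.sum_prod_type, Fintype.sum_bool, f]
    norm_num
  | cons c w =>
    simp only [FreeGroup.reduce.cons (α := Bool) (L := c :: w), hW]
    rcases c with ⟨_ | _, _ | _⟩ <;>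
      simp [Fintype.sum_prod_type, f] <;> ring

theorem hT_harm (x : F) : ∑ s : Lt, hT (x * gen s) = 4 * hT x := by
  unfold hT
  rw [← f_harm (x⁻¹).toWord (FreeGroup.reduce_toWord _)]
  refine Fintype.sum_bijective opp ⟨?_, ?_⟩ _ _ ?_
  · intro a b h
    rw [← opp_opp a, h, opp_opp]
  · intro a
    exact ⟨opp a, opp_opp a⟩
  · intro s
    congr 1
    rw [mul_inv_rev, gen_inv, FreeGroup.toWord_mul, toWord_gen]
    rfl

theorem result : ∃ (V : Type) (G : SimpleGraph V) (_ : G.LocallyFinite),
    Infinite V ∧ G.Connected ∧ VertexTransitive G ∧ ¬ Liouville G ∧ survival G ≤ 8 := by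
  classical
  refine ⟨F × ℤ, GS, instLF, inferInstance, GS_conn, GS_vt, ?_, GS_survival⟩
  intro hL
  have h1 := hL (fun v => hT v.1) ?_ ?_ (1, 0) (gen (true, false), 0)
  · have e1 : hT (1 : F) = 1 := by simp [hT, f]
    have e2 : hT (gen (true, false)) = 2 := by
      unfold hT
      rw [gen_inv, toWord_gen]
      simp [f, opp]
    simp only at h1
    rw [e1, e2] at h1
    norm_num at h1
  · intro v
    have e0 : ∑ o : Option Lt, hT (v.1 * gO o) = 5 * hT v.1 := by
      rw [Fintype.sum_option]
      simp only [gO, mul_one]
      rw [hT_harm]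
      ring
    have e1 : ∑ u ∈ GS.neighborFinset v, hT u.1 = 14 * hT v.1 := by
      rw [GS_neighborFinset, Finset.sum_map, Finset.sum_erase_eq_sub (Finset.mem_univ _)]
      simp only [nbr_apply]
      rw [Fintype.sum_prod_type]
      simp only [Finset.sum_const, Finset.card_univ, nsmul_eq_mul]
      rw [← Finset.mul_sum, e0]
      simp [gO]
      ring
    have e2 : GS.degree v = 14 := by
      rw [← card_neighborFinset_eq_degree, GS_neighborFinset, Finset.card_map,
        Finset.card_erase_of_mem (Finset.mem_univ _), Finset.card_univ]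
      simp
    rw [e1, e2]
    push_cast
    ring
  · refine ⟨5 / 2, fun v => ?_⟩
    have h2 := f_bd (v.1⁻¹).toWord
    have h3 : (0 : ℝ) < (1 / 3) ^ (v.1⁻¹).toWord.length := by positivity
    change |f _| ≤ _
    linarith

end Pool.Agent.Results.MP_70c392_co.StrongTree
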